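import Pool.Agent.Y788.CE.Dih
import Pool.Agent.Y788.CE.Free

/-!
# Restricted rational Cherednik algebras of Coxeter groups which are not cellular
-/

set_option autoImplicit false

namespace Pool.Agent.Results.MP_385815_al.DihedralNeverCellular

open Pool.Agent.H468R3
open Pool.Agent.Y788.CE (ClassFn Cellular TraceZero traceZero)

/-- **Theorem.** (1) For EVERY finite Coxeter group `W` and EVERY parameter `c`: if the restricted
rational Cherednik algebra `H̄_c(W)` is cellular, then every nontrivial element of `W` has trace zero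
on every finite-dimensional `H̄_c(W)`-module.
(2) For all `n ≥ 5`, `n ≠ 6`, odd or even, the dihedral group `W = I_2(n)` of order
`2 n` is a finite Coxeter group such that `H̄_c(W)` has no cell datum, for EVERY parameter `c`.
(3) For EVERY nontrivial finite Coxeter group `W` the algebra `H̄_0(W)` has no cell datum. -/
theorem result :
    (∀ (V : Type) [AddCommGroup V] [Module ℂ V] (W : Subgroup (V ≃ₗ[ℂ] V)) [Fintype W]
      (c : W → ℂ), IsCoxeter W → ClassFn W c → Cellular W c → TraceZero W c) ∧
    (∀ (n : ℕ) [NeZero n], 5 ≤ n → n ≠ 6 → IsCoxeter (Dih.W n) ∧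
      ∀ c : Dih.W n → ℂ, ClassFn (Dih.W n) c → ¬ Cellular (Dih.W n) c) ∧
    (∀ (V : Type) [AddCommGroup V] [Module ℂ V] (W : Subgroup (V ≃ₗ[ℂ] V)) [Fintype W],
      IsCoxeter W → W ≠ ⊥ → ¬ Cellular W 0) :=
  ⟨fun _ _ _ _ _ _ hW hc h => traceZero hW hc h,
    fun n _ hn hn6 => ⟨Dih.isCoxeter n, fun _ hc => Y788.CE.not_cellular hc hn hn6⟩,
    fun _ _ _ _ _ hW hne => not_cellular_zero hW hne⟩

end Pool.Agent.Results.MP_385815_al.DihedralNeverCellular
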